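import Pool.Agent.helper92.ISO.SpecG

/-!
# Project ISO (MP_069684_lc): the sharp threshold of the isolation probability. Block C: circuits

Calculus of circuits: `import Pool.Agent.helper64.PB.Asm` gives `Pool.Agent.PB.pAPP`, `pSUB`, `pCMP` (composition: `Size G (F ∘ φ) (s + ∑ t i)`), `pDNF` (every function has a circuit over `std`), ...;
statements in `Pool/Agent/helper64/PB/SpecA.lean`. Sizes of circuits are always generous: prove any bound you like and estimate.
-/

set_option autoImplicit false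

open Filter Topology

namespace Pool.Agent.ISO

open Pool.Agent.PB

/-! ## Calculus -/

/-- **Row CIR** (short; from PB: CMP (pCMP)). Variables cost nothing; constants one gate; the gates `gNot`, `gAnd`, `gOr` are `Size 1` functions of 1, 2, 2 variables: CMP. Conjunctions and disjunctions over a finite index set: induction (transfer to `Fin N` by
`Fintype.equivFin`), or `pALA`, `pALO`. -/
def CIR_stmt : Prop :=
  (∀ (n : ℕ) (j : Fin n), Size std (fun x : Fin n → Bool => x j) 0) ∧
  (∀ (n : ℕ) (b : Bool), Size std (fun _ : Fin n → Bool => b) 1) ∧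
  (∀ (n s t : ℕ) (f : BF n), Size std f s → s ≤ t → Size std f t) ∧
  (∀ (n s : ℕ) (f : BF n), Size std f s → Size std (fun x => !(f x)) (s + 1)) ∧
  (∀ (n s t : ℕ) (f g : BF n), Size std f s → Size std g t →
    Size std (fun x => f x && g x) (s + t + 1) ∧ Size std (fun x => f x || g x) (s + t + 1)) ∧
  (∀ (ι : Type) [Fintype ι] (n t : ℕ) (g : ι → BF n) (F : BF n), (∀ i, Size std (g i) t) →
    (∀ x, F x = true ↔ ∀ i, g i x = true) → Size std F (Fintype.card ι * (t + 1) + 1)) ∧
  ∀ (ι : Type) [Fintype ι] (n t : ℕ) (g : ι → BF n) (F : BF n), (∀ i, Size std (g i) t) →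
    (∀ x, F x = true ↔ ∃ i, g i x = true) → Size std F (Fintype.card ι * (t + 1) + 1)

/-- **Row CNT** (symmetric functions; medium; from PB: CMP, APP). First `ι = Fin N`, `g i` = the variables: the program computes for `i = 0..N`, `j ≤ i` the functions `c_(i,j)` = [exactly `j` of the first `i` variables are 1]: `c_(i+1,j) = (y_i and c_(i,j-1)) or (not y_i and c_(i,j))`
(at most 5 gates each), and then the disjunction of the `c_(N,j)`, `P j`. In general: transfer to `Fin N` and CMP. -/
def CNT_stmt : Prop := ∀ (ι : Type) [Fintype ι] (n t : ℕ) (g : ι → BF n) (F : BF n) (P : ℕ → Prop), (∀ i, Size std (g i) t) →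
  (∀ x, F x = true ↔ P (Finset.univ.filter fun i => g i x = true).card) →
    Size std F (Fintype.card ι * t + 10 * (Fintype.card ι + 1) ^ 2)

/-- **Row SEL** (short; from PB: CMP; CIR). Constants and variables are substituted for the variables: CMP with sizes `0` and `1`. -/
def SEL_stmt : Prop := ∀ (n N s : ℕ) (F : BF N) (φ : Fin N → BF n), Size std F s →
  (∀ i, (∃ b : Bool, φ i = fun _ => b) ∨ ∃ j, φ i = fun x => x j) → Size std (fun x => F fun i => φ i x) (s + N)

/-! ## The list verifier -/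

/-- the input of length `N` with the blocks `X e` -/
def enc {M n : ℕ} (N : ℕ) (X : Fin M → Fin n → Bool) : Fin N → Bool := fun i =>
  if h : (i : ℕ) < M * n then X (finProdFinEquiv.symm ⟨i, h⟩).1 (finProdFinEquiv.symm ⟨i, h⟩).2 else false

/-- the witness (mode `j`, witnesses `z e`) -/
def encW {M R w : ℕ} (j : Fin R) (z : Fin M → Fin w → Bool) : Fin (R + M * w) → Bool :=
  Fin.append (fun j' => decide (j' = j)) fun i => z (finProdFinEquiv.symm i).1 (finProdFinEquiv.symm i).2

/-- The list verifier: the input consists of `M` inputs `x_e` of `f`, the witness of a mode `j` (one-hot code) and `M` witnesses `z_e`; for `j ∈ K e` the witness `z_e` must be zero, for `j ∉ K e` it must be a witness of `x_e`. -/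
def listV {n w : ℕ} (f : BF (n + w)) {M R : ℕ} (N : ℕ) (h : M * n ≤ N) (K : Fin M → Finset (Fin R)) : BF (N + (R + M * w)) := fun Z =>
  decide (∃ j : Fin R, (∀ j' : Fin R, Z (Fin.natAdd N (Fin.castAdd (M * w) j')) = decide (j' = j)) ∧
    ∀ e : Fin M, (j ∈ K e ∧ ∀ i : Fin w, Z (Fin.natAdd N (Fin.natAdd R (finProdFinEquiv (e, i)))) = false) ∨
      (j ∉ K e ∧ f (Fin.append (fun i : Fin n => Z (Fin.castAdd (R + M * w) (Fin.castLE h (finProdFinEquiv (e, i)))))
        (fun i : Fin w => Z (Fin.natAdd N (Fin.natAdd R (finProdFinEquiv (e, i)))))) = true))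

/-- **Row LVS** (size of the list verifier; short-medium; from CIR, SEL). Disjunction over `j` of the conjunction of the one-hot test (`R` variables or negated variables) and over `e` of `w` negated variables or a copy of `f`. -/
def LVS_stmt : Prop := ∀ (n w M R N s Q : ℕ) (f : BF (n + w)) (h : M * n ≤ N) (K : Fin M → Finset (Fin R)), Size std f s →
  n + w + M + R + N + s + 2 ≤ Q → Size std (listV f N h K) (Q ^ 8)

/-- **Row LVW** (short-medium; pure). Unfold; `Fin.append_left`, `Fin.append_right`; block `e` of `enc N X` is `X e`; every `Y` is the append of its two halves. -/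
def LVW_stmt : Prop := ∀ (n w M R N : ℕ) (f : BF (n + w)) (h : M * n ≤ N) (K : Fin M → Finset (Fin R)) (X : Fin M → Fin n → Bool)
  (Y : Fin (R + M * w) → Bool), listV f N h K (Fin.append (enc N X) Y) = true ↔
    ∃ (j : Fin R) (z : Fin M → Fin w → Bool), Y = encW j z ∧
      ∀ e, (j ∈ K e ∧ z e = fun _ => false) ∨ (j ∉ K e ∧ f (Fin.append (X e) (z e)) = true)

/-- the witnesses of the mode `j`: zero for `j ∈ K e`, `u e` otherwise -/
def zs {M R w : ℕ} (K : Fin M → Finset (Fin R)) (u : Fin M → Fin w → Bool) (j : Fin R) : Fin M → Fin w → Bool :=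
  fun e => if j ∈ K e then fun _ => false else u e

/-- **Row WTC** (short-medium; from LVW). By LVW the witnesses of `enc N X` for the list verifier are exactly the `encW j (zs K u j)`, `j ∈ K e0` (place `e0` forces `j ∈ K e0`, at the other places `z e = u e` or `z e = 0`); `j ↦ encW j _` is injective. -/
def WTC_stmt : Prop := ∀ (n w M R N : ℕ) (f : BF (n + w)) (h : M * n ≤ N) (K : Fin M → Finset (Fin R)) (X : Fin M → Fin n → Bool)
  (u : Fin M → Fin w → Bool) (e0 : Fin M), (∀ e, e ≠ e0 → ∀ y, f (Fin.append (X e) y) = true ↔ y = u e) →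
  (∀ y, f (Fin.append (X e0) y) = false) →
    wit (listV f N h K) (enc N X) = (K e0).card ∧
    ∀ W : BF (N + (R + M * w)), (∀ z, W z = true → listV f N h K z = true) →
      wit W (enc N X) = ((K e0).filter fun j => W (Fin.append (enc N X) (encW j (zs K u j))) = true).card

/-- the number of modes in `K e0` which survive in `W` when the input `x` is put at place `e0` -/
def tcnt {n w M R N : ℕ} (K : Fin M → Finset (Fin R)) (W : BF (N + (R + M * w))) (e0 : Fin M) (X : Fin M → Fin n → Bool)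
    (u : Fin M → Fin w → Bool) (x : Fin n → Bool) : ℕ :=
  ((K e0).filter fun j => W (Fin.append (enc N (Function.update X e0 x)) (encW j (zs K u j))) = true).card

open Classical in
/-- the test: less than `p k` of the `W i` leave between `1` and `κ` modes -/
noncomputable def tst {n w M R N k : ℕ} (K : Fin M → Finset (Fin R)) (κ : ℕ) (p : ℝ) (W : Fin k → BF (N + (R + M * w))) (e0 : Fin M)
    (X : Fin M → Fin n → Bool) (u : Fin M → Fin w → Bool) : BF n := fun x =>
  decide (((Finset.univ.filter fun i => 1 ≤ tcnt K (W i) e0 X u x ∧ tcnt K (W i) e0 X u x ≤ κ).card : ℝ) < p * k)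

/-- **Row TSZ** (size of the test; short-medium; from CIR, CNT, SEL). `x ↦ W i (append (enc N (update X e0 x)) (encW j ..))` is `W i` with constants and variables substituted (every bit of `enc N (update X e0 x)` is a variable or a constant): SEL. `x ↦ [1 ≤ tcnt ≤ κ]` is CNT over
`ι = K e0` (at most `R` elements), the test is CNT over `Fin k`. -/
def TSZ_stmt : Prop := ∀ (n w M R N k κ B Q : ℕ) (p : ℝ) (K : Fin M → Finset (Fin R)) (W : Fin k → BF (N + (R + M * w))) (e0 : Fin M)
  (X : Fin M → Fin n → Bool) (u : Fin M → Fin w → Bool), (∀ i, Size std (W i) B) → B + N + (R + M * w) + k + 2 ≤ Q →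
    Size std (tst K κ p W e0 X u) (30 * Q ^ 3)

/-- **Row SND** (soundness; short; from WTC). By WTC for `X' = update X e0 x`: `wit (listV ..) (enc N X') = |K e0|` is between `1` and `m`, and `tcnt K (W i) e0 X u x = wit (W i) (enc N X')`, so at least `p k` of the `i` are counted. -/
def SND_stmt : Prop := ∀ (n w M R N k m κ : ℕ) (p : ℝ) (f : BF (n + w)) (h : M * n ≤ N) (K : Fin M → Finset (Fin R))
  (W : Fin k → BF (N + (R + M * w))) (e0 : Fin M) (X : Fin M → Fin n → Bool) (u : Fin M → Fin w → Bool) (x : Fin n → Bool),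
  (∀ e, 1 ≤ (K e).card ∧ (K e).card ≤ m) → (∀ i z, W i z = true → listV f N h K z = true) →
  (∀ x', 1 ≤ wit (listV f N h K) x' → wit (listV f N h K) x' ≤ m →
    p * k ≤ ((Finset.univ.filter fun i => 1 ≤ wit (W i) x' ∧ wit (W i) x' ≤ κ).card : ℝ)) →
  (∀ e, e ≠ e0 → ∀ y, f (Fin.append (X e) y) = true ↔ y = u e) → (∀ y, f (Fin.append x y) = false) →
    tst K κ p W e0 X u x = false

/-- **Row CPL** (completeness; short; pure). `update X e0 (X e0) = X`, so with `T i` = the set of the `j` with `W i (append (enc N X) (encW j (zs K u j)))` the condition for `i` at the place `e0` is `Hit κ (T i) (K e0)`. The sum over `e0` of the numbers of these `i` is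
`∑_i #{e0 : Hit} < k p M` (`Design`, `k ≥ 1`), so some place has less than `p k`. -/
def CPL_stmt : Prop := ∀ (n w M R N k m κ : ℕ) (p : ℝ) (K : Fin M → Finset (Fin R)) (W : Fin k → BF (N + (R + M * w)))
  (X : Fin M → Fin n → Bool) (u : Fin M → Fin w → Bool), 1 ≤ k → 1 ≤ M → Design m κ p K → ∃ e0, tst K κ p W e0 X u (X e0) = true

/-- **Row GRD** (averaging and greedy choice; medium; pure). Claim: for every nonempty `U' ⊆ U` there are `e`, `X` (values in `U'`) such that `test e X` accepts at least `|U'|/M` elements of `U'`: the sum over `e` of the numbers of the `X : Fin M → U'` with `test e X (X e)` is `≥ |U'|^M`, so for some `e` it is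
`≥ |U'|^M/M`; group the `X` by their values outside `e` (`test e X x` does not depend on `X e`). Greedy: after `l` steps at most `|U| (1 - 1/M)^l` elements of `U` are left, and `2^n (1 - 1/M)^(M n + 1) < 1`. (`M = 1`: one step is enough. When nothing is left take any `e` and any `X` with values in `U`.) -/
def GRD_stmt : Prop := ∀ (α : Type) [Fintype α] [DecidableEq α] (M n : ℕ) (test : Fin M → (Fin M → α) → α → Bool) (U : Finset α),
  1 ≤ M → U.Nonempty → U.card ≤ 2 ^ n → (∀ e X x y, test e (Function.update X e y) x = test e X x) →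
  (∀ X : Fin M → α, (∀ e, X e ∈ U) → ∃ e, test e X (X e) = true) →
    ∃ (e : Fin (M * n + 1) → Fin M) (X : Fin (M * n + 1) → Fin M → α), (∀ l e', X l e' ∈ U) ∧ ∀ x ∈ U, ∃ l, test (e l) (X l) x = true

/-- **Row COR** (one input length; short-medium; from CIR, TSZ, SND, CPL, GRD). `U` = the `x` with `wit f x = 1`, `u e` = the witness of `X e` (any value if there is not exactly one). If `U` is empty take `D = false`. Otherwise GRD with `test e X = tst K κ p W e X u`, `u = u(X)` (independent of `X e`: `tst` uses `u e`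
only in `zs K u j` with `j ∈ K e`, which is zero at place `e`). `D` = disjunction of the `M n + 1` tests; `Q (30 Q³ + 1) + 1 ≤ Q^10`. -/
def COR_stmt : Prop := ∀ (n w M R N m κ B Q : ℕ) (p : ℝ) (f : BF (n + w)) (h : M * n ≤ N) (K : Fin M → Finset (Fin R)), 1 ≤ M →
  Design m κ p K → PruneAt m κ p B (listV f N h K) → 2 * B + N + (R + M * w) + 2 ≤ Q →
    ∃ D : BF n, Size std D (Q ^ 10) ∧ (∀ x, wit f x = 1 → D x = true) ∧ ∀ x, wit f x = 0 → D x = false

/-- **Row UNP** (uniform bound; short-medium; from CIR). `PruneAt` is monotone in `B`. For every `n` there are finitely many pairs `(w, f)` with `w ≤ n^c + c`, `Size std f (n^c + c)` (and at least one: `w = 0`, `f` constant); choose the pair `(w_n, V_n)` for which the least `B` with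
`PruneAt .. B` is largest (or such that there is no such `B`): then `PruneAt .. B V_n` implies `PruneAt .. B f` for all these `f`. Apply `AllPrunable` to `V`. -/
def UNP_stmt : Prop := ∀ (m κ : ℕ → ℕ) (p : ℕ → ℝ), AllPrunable m κ p → ∀ c : ℕ, ∃ c' : ℕ, ∀ (n w : ℕ) (f : BF (n + w)),
  w ≤ n ^ c + c → Size std f (n ^ c + c) → PruneAt (m n) (κ n) (p n) (n ^ c' + c') f

/-- Circuits which distinguish inputs with exactly one witness from inputs without a witness. -/
def PU : Prop := ∀ c : ℕ, ∃ c' : ℕ, ∀ (n w : ℕ) (f : BF (n + w)), w ≤ n ^ c + c → Size std f (n ^ c + c) →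
  ∃ D : BF n, Size std D (n ^ c' + c') ∧ (∀ x, wit f x = 1 → D x = true) ∧ ∀ x, wit f x = 0 → D x = false

/-- **Row PUB** (medium; from LVS, UNP, COR; PB: DNF (pDNF)). Let `a ≥ 1/δ` be a natural number and `N = n^a`; for large `n` a design for `N` exists with `M n ≤ N^(1-δ) n ≤ N`, `M ≤ N`, `R ≤ N`. The list verifier at length `N` has witnesses of length `R + M w ≤ N (1 + n^c + c)` and size `≤ (poly n)^8`: both are
`≤ N^c1 + c1`. UNP gives `PruneAt` with `B = N^c2 + c2`, COR gives `D` of size `≤ (poly n)`. For the finitely many small `n`: every function `D : BF n` has a circuit, finitely many functions. -/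
def PUB_stmt : Prop := ∀ (δ : ℝ) (m κ : ℕ → ℕ) (p : ℕ → ℝ), 0 < δ → AllPrunable m κ p →
  (∀ᶠ N : ℕ in atTop, ∃ (M R : ℕ) (K : Fin M → Finset (Fin R)), 1 ≤ M ∧ (M : ℝ) ≤ (N : ℝ) ^ (1 - δ) ∧ R ≤ N ∧
    Design (m N) (κ N) (p N) K) → PU

/-! ## Hashing -/

/-- the inner product modulo 2 -/
def ip {w : ℕ} (a y : Fin w → Bool) : Bool := decide (Odd (Finset.univ.filter fun j => a j = true ∧ y j = true).card)

/-- **Row IPC** (short-medium; pure). `y ≠ y'` differ at a place `j`; flipping `a j` flips exactly one of `ip a y`, `ip a y'`: an involution which exchanges `ip a y = ip a y'` and `ip a y ≠ ip a y'`. Second part: for every `a` with `ip a y = ip a y'` exactly one `b`. Third part: for every `a` exactly one `b`. -/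
def IPC_stmt : Prop := ∀ (w : ℕ) (y y' : Fin w → Bool),
  (y ≠ y' → 2 * (Finset.univ.filter fun a : Fin w → Bool => ip a y = ip a y').card = 2 ^ w) ∧
  (y ≠ y' → 2 * (Finset.univ.filter fun a : (Fin w → Bool) × Bool => ip a.1 y = a.2 ∧ ip a.1 y' = a.2).card = 2 ^ w) ∧
  (Finset.univ.filter fun a : (Fin w → Bool) × Bool => ip a.1 y = a.2).card = 2 ^ w

/-- affine conditions -/
abbrev HI (w : ℕ) : Type := Fin (w + 3) × (Fin (w + 2) → (Fin w → Bool) × Bool)

/-- the first `h.1` of the affine conditions `h.2` hold -/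
def hsat {w : ℕ} (h : HI w) (y : Fin w → Bool) : Prop := ∀ i : Fin (w + 2), (i : ℕ) < (h.1 : ℕ) → ip (h.2 i).1 y = (h.2 i).2

open Classical in
/-- **Row VVP** (Valiant-Vazirani; medium; from IPC). Let `k = ⌊log₂ |Z|⌋ + 2`, `2 ≤ k ≤ w + 2`, `u = |Z|/2^k`, `1/4 ≤ u < 1/2`. For `k` conditions: `Pr[hsat y] = 2^(-k)`, `Pr[hsat y and hsat y'] = 4^(-k)` (`y ≠ y'`), so
`Pr[exactly one] ≥ |Z| 2^(-k) - |Z| (|Z| - 1) 4^(-k) ≥ u - u² ≥ 3/16` (`[N = 1] ≥ N - N(N-1)` for natural numbers `N`). Only the `h` with `h.1 = k` are used: a fraction `1/(w+3)`. -/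
def VVP_stmt : Prop := ∀ (w : ℕ) (Z : Finset (Fin w → Bool)), Z.Nonempty →
  Fintype.card (HI w) ≤ 8 * (w + 3) * (Finset.univ.filter fun h : HI w => (Z.filter fun y => hsat h y).card = 1).card

open Classical in
/-- **Row VVL** (short; from VVP, PTL). PTL with `α` = the `x` with `1 ≤ wit f x` (if there is none: `L = 1`), `ι = HI w`, `hit h x` = [exactly one witness of `x` satisfies `hsat h`], `q = 1/(8(w+3))`, `lam = 1/2`, `k = L = 64 (w+3)(n+1)`: every `x` is hit at least
`L q/2 - 2 n ln 2 > 0` times. (The hypothesis of PTL follows by averaging over `h`.) -/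
def VVL_stmt : Prop := ∀ (n w : ℕ) (f : BF (n + w)), ∃ h : Fin (64 * (w + 3) * (n + 1)) → HI w, ∀ x : Fin n → Bool, 1 ≤ wit f x →
  ∃ l, (Finset.univ.filter fun y : Fin w → Bool => f (Fin.append x y) = true ∧ hsat (h l) y).card = 1

/-- **Row IPS** (size of the inner product and of affine conditions; short; from CIR, CNT). `y ↦ ip a y` is a symmetric function (CNT, `P` = odd) of the at most `w` functions `a j = true ∧ y j = true` (variables or false). -/
def IPS_stmt : Prop := (∀ (n w : ℕ) (a : Fin w → Bool), Size std (fun z : Fin (n + w) → Bool => ip a fun j => z (Fin.natAdd n j)) (20 * (w + 1) ^ 2)) ∧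
  ∀ (n w s : ℕ) (f F : BF (n + w)) (h : HI w), Size std f s →
    (∀ x y, F (Fin.append x y) = true ↔ f (Fin.append x y) = true ∧ hsat h y) → Size std F (s + 100 * (w + 3) ^ 3)

/-- **Row VVA** (short-medium; from CIR, VVL, IPS). Let `A` be in NP/Poly, with `f` at length `n`. With the list `h` of VVL let `f_l` = [`f` and `hsat (h l)`]; IPS: polynomial size; PU gives `D_l` of polynomial size (one constant for all `n`, `l`); `A n` = disjunction of the `D_l`: if `x` has no witness then
`wit f_l x = 0` for all `l`; if it has one then `wit f_l x = 1` for some `l`. -/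
def VVA_stmt : Prop := PU → ∀ A : Lang, InNPPoly A → InPPoly A

/-! ## P/Poly = NP/Poly implies pruning -/

/-- **Row UNN** (uniform bound; short-medium; from CIR, PB: DNF). As UNP: for every `n` choose among the finitely many `(w, f)` one for which the least size of `x ↦ ∃ y, f(x, y)` is largest; these functions form a language in NP/Poly. -/
def UNN_stmt : Prop := (∀ A : Lang, InNPPoly A → InPPoly A) → ∀ c : ℕ, ∃ c' : ℕ, ∀ (n w : ℕ) (f : BF (n + w)) (F : BF n),
  w ≤ n ^ c + c → Size std f (n ^ c + c) → (∀ x, F x = true ↔ ∃ y, f (Fin.append x y) = true) → Size std F (n ^ c' + c')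

/-- **Row LEX** (medium; from CIR, SEL, UNN). `y' < y` iff for some `i`: `y' i = 0`, `y i = 1` and `y' j = y j` for all `j < i` (a strict total order; circuit of size `≤ 20 (w+1)²`). Pruning with `k = 1`: `W(x,y)` = [`V(x,y)` and no `y' < y` with `V(x,y')`]; exactly one witness if there is one (`κ ≥ 1`, `p ≤ 1`). The second condition is
the negation of an NP property of the input `(x, y)` of length `n + w`: UNN for `f'((x,y),y')` = [`V(x,y')` and `y' < y`], size `≤ (n+w)^c1 + c1` (`w ≤ n + w`). -/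
def LEX_stmt : Prop := (∀ A : Lang, InNPPoly A → InPPoly A) → ∀ (m κ : ℕ → ℕ) (p : ℕ → ℝ), (∀ n, 1 ≤ κ n) → (∀ n, p n ≤ 1) → AllPrunable m κ p

/-! ## Unconditional pruning -/

/-- the linear map -/
def lin {r w : ℕ} (A : Fin r → Fin w → Bool) (y : Fin w → Bool) : Fin r → Bool := fun i => ip (A i) y

open Classical in
/-- **Row HIN** (linear hashing is injective; short-medium; from IPC). Union bound over the pairs of `Z`: for `y ≠ y'` the number of the `A` with `lin A y = lin A y'` is `(2^(w-1))^r` (IPC, product), i.e. `2^(-r)` of all; there are `|Z|(|Z|-1)/2 ≤ m²/2` pairs. -/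
def HIN_stmt : Prop := ∀ (w r m : ℕ) (Z : Finset (Fin w → Bool)), Z.card ≤ m →
  2 * 2 ^ r * (Finset.univ.filter fun A : Fin r → Fin w → Bool => ¬ Set.InjOn (lin A) (Z : Set (Fin w → Bool))).card ≤
    m ^ 2 * Fintype.card (Fin r → Fin w → Bool)

open Classical in
/-- **Row MLS** (list of matrices; short; from HIN, PTL). PTL with `α` = the `x` with `wit f x ≤ m` (if there is none: trivial), `ι` = the matrices, `hit A x` = [`lin A` is injective on the witnesses of `x`], `q = 1 - m²/(2·2^r)` (HIN and averaging), `ln |α| ≤ n ln 2`. -/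
def MLS_stmt : Prop := ∀ (n w r m k : ℕ) (f : BF (n + w)) (lam : ℝ), 0 < lam → lam ≤ 1 → (m : ℝ) ^ 2 ≤ 2 * 2 ^ r →
  ∃ A : Fin k → Fin r → Fin w → Bool, ∀ x : Fin n → Bool, wit f x ≤ m →
    (1 - lam) * (1 - (m : ℝ) ^ 2 / (2 * 2 ^ r)) * k - n * Real.log 2 / lam ≤
      ((Finset.univ.filter fun j => Set.InjOn (lin (A j)) {y : Fin w → Bool | f (Fin.append x y) = true}).card : ℝ)

/-- **Row TBS** (size of a table; short-medium; from CIR, IPS). `F` = `f` and the disjunction over `t ∈ T` (at most `2^r`) of the conjunction over `i < r` of [`ip (A i) y = t i`] (size `≤ 20 (w+1)² + 1`). -/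
def TBS_stmt : Prop := ∀ (n w r s : ℕ) (f F : BF (n + w)) (A : Fin r → Fin w → Bool) (T : Finset (Fin r → Bool)), Size std f s →
  (∀ x y, F (Fin.append x y) = true ↔ f (Fin.append x y) = true ∧ lin A y ∈ T) →
    Size std F (s + 100 * 2 ^ r * (r + 1) * (w + 1) ^ 2 + 10)

open Classical in
/-- **Row PB1** (one input length; short-medium; from PRL, MLS, TBS). `k = k1 k2`, `W (i, j)` = [`f` and `lin (A j) y ∈ T i`] (identify `Fin r → Bool` with `Fin (2^r)`), `T` from PRL for `R = 2^r`, `A` from MLS. For `x` with `1 ≤ wit f x ≤ m` and `A j` injective on its witnesses `Z`: the witnesses of `W (i, j)` correspond to `T i ∩ A j Z`,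
and `1 ≤ |A j Z| ≤ m`. So at least `a1 a2` of the `k1 k2` pairs are good if `a1`, `a2` are the lower bounds of PRL and MLS. -/
def PB1_stmt : Prop := ∀ (n w r s m κ k1 k2 B : ℕ) (f : BF (n + w)) (lam p : ℝ), 1 ≤ m → 1 ≤ κ → 0 < lam → lam ≤ 1 → 1 ≤ k1 → 1 ≤ k2 →
  (m : ℝ) ^ 2 ≤ 2 * 2 ^ r → Size std f s → k1 * k2 + (s + 100 * 2 ^ r * (r + 1) * (w + 1) ^ 2 + 10) ≤ B →
  0 ≤ (1 - lam) * theta m κ * k1 - m * Real.log (2 ^ r + 1) / lam →
  0 ≤ (1 - lam) * (1 - (m : ℝ) ^ 2 / (2 * 2 ^ r)) * k2 - n * Real.log 2 / lam →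
  p * (k1 * k2 : ℕ) ≤ ((1 - lam) * theta m κ * k1 - m * Real.log (2 ^ r + 1) / lam) *
    ((1 - lam) * (1 - (m : ℝ) ^ 2 / (2 * 2 ^ r)) * k2 - n * Real.log 2 / lam) →
    PruneAt m κ p B f

/-- **Row PB2** (numbers; medium; from THB, PB1). We may assume `ε < 1` (for `ε ≥ 1`, `p ≤ 0` is enough: then replace `ε` by `1/2`, as `(1 - 1/2) theta ≥ 0 ≥ p`). `δ = ε/8`, `m = m(n)`, `θ = theta m κ ≥ 1/(4 (1 + ln m))` (THB). Choose `r` with `m²/δ ≤ 2^r < 2 m²/δ` (or `r = 0`, if `m²/δ ≤ 1`), `lam = δ`, `k1 = ⌈m ln(2^r + 1)/(δ² θ)⌉ + 1`,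
`k2 = ⌈n ln 2/δ²⌉ + 1`. Then the bounds of PB1 are `≥ (1 - 2δ) θ k1` and `≥ ((1-δ)(1-δ/2) - δ) k2 ≥ (1 - 3δ) k2`, the product is `≥ (1 - 5δ) θ k1 k2 ≥ p k1 k2`. Everything is polynomial in `n`. -/
def PB2_stmt : Prop := ∀ (ε : ℝ) (m κ : ℕ → ℕ) (p : ℕ → ℝ) (c : ℕ), 0 < ε → (∀ n, 1 ≤ m n) → (∀ n, m n ≤ n ^ c + c) → (∀ n, 1 ≤ κ n) →
  (∀ n, p n ≤ (1 - ε) * theta (m n) (κ n)) → AllPrunable m κ p

/-! ## The theorem -/

/-- **Row FIN** (short; from DSP, PUB, VVA, LEX, PB2, TWO, LIM; CIR for: every language of P/Poly is in NP/Poly (`w = 0`; or only the implication stated here)). -/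
def FIN_stmt : Prop :=
  (∀ (ε : ℝ) (m κ : ℕ → ℕ) (p : ℕ → ℝ), 0 < ε → ε < 1 / 2 → (∀ n, 1 ≤ m n) → (∀ n, 1 ≤ κ n) → (∀ n, p n ≤ 1) →
    (∀ᶠ n : ℕ in atTop, Above ε (m n) (κ n) n (p n)) → (AllPrunable m κ p ↔ ∀ A : Lang, InPPoly A ↔ InNPPoly A)) ∧
  (∀ (ε : ℝ) (m κ : ℕ → ℕ) (p : ℕ → ℝ) (c : ℕ), 0 < ε → (∀ n, 1 ≤ m n) → (∀ n, m n ≤ n ^ c + c) → (∀ n, 1 ≤ κ n) →
    (∀ n, p n ≤ (1 - ε) * theta (m n) (κ n)) → AllPrunable m κ p) ∧
  theta 2 1 = 1 / 2 ∧ (∀ m κ : ℕ, 1 ≤ κ → κ ≤ m → theta m κ ≤ (harmonic κ : ℝ) / (harmonic m : ℝ)) ∧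
  ∀ κ : ℕ, 1 ≤ κ → Tendsto (fun m : ℕ => theta m κ * Real.log m) atTop (𝓝 (harmonic κ : ℝ))

end Pool.Agent.ISO
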