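import Mathlib
import Pool.Agent.helper64.PB.Defs

/-!
# MP_069684 (P/Poly versus NP/Poly): the sharp threshold of the isolation probability: definitions
-/

set_option autoImplicit false

namespace Pool.Agent.ISO

open Pool.Agent.PB

/-! ## Verifiers and their witnesses -/

/-- The number of witnesses of the input `x` for the verifier `f` (with witnesses of length `w`). -/
def wit {n w : ℕ} (f : BF (n + w)) (x : Fin n → Bool) : ℕ :=
  (Finset.univ.filter fun y : Fin w → Bool => f (Fin.append x y) = true).card

/-- Randomised non-uniform pruning of witnesses (given by the list of its outcomes): at most `B` verifiers `W i` with circuits of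
size at most `B` which accept only witnesses of `f`, such that for every input `x` with at least `1` and at most `m`
witnesses a fraction at least `p` of the `W i` have at least `1` and at most `κ` witnesses. -/
def PruneAt {n w : ℕ} (m κ : ℕ) (p : ℝ) (B : ℕ) (f : BF (n + w)) : Prop :=
  ∃ (k : ℕ) (W : Fin k → BF (n + w)), 1 ≤ k ∧ k ≤ B ∧ (∀ i, Size std (W i) B) ∧
    (∀ i z, W i z = true → f z = true) ∧
    ∀ x, 1 ≤ wit f x → wit f x ≤ m →
      p * k ≤ ((Finset.univ.filter fun i => 1 ≤ wit (W i) x ∧ wit (W i) x ≤ κ).card : ℝ)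

/-- All verifiers of polynomial size can be pruned in polynomial size: inputs of length `n` with `1` to `m n` witnesses
get `1` to `κ n` witnesses with probability at least `p n`. -/
def AllPrunable (m κ : ℕ → ℕ) (p : ℕ → ℝ) : Prop :=
  ∀ (w : ℕ → ℕ) (V : ∀ n, BF (n + w n)) (c : ℕ), (∀ n, w n ≤ n ^ c + c ∧ Size std (V n) (n ^ c + c)) →
    ∃ c' : ℕ, ∀ n, PruneAt (m n) (κ n) (p n) (n ^ c' + c') (V n)

/-! ## The game -/

/-- A probability distribution on the nonempty subsets with at most `m` elements of a set of `R` elements. -/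
structure Strat (R m : ℕ) (μ : Finset (Fin R) → ℝ) : Prop where
  nonneg : ∀ K, 0 ≤ μ K
  supp : ∀ K, μ K ≠ 0 → 1 ≤ K.card ∧ K.card ≤ m
  sum : ∑ K, μ K = 1

/-- `1 ≤ |T ∩ K| ≤ κ` -/
def Hit {R : ℕ} (κ : ℕ) (T K : Finset (Fin R)) : Prop := 1 ≤ (T ∩ K).card ∧ (T ∩ K).card ≤ κ

instance {R : ℕ} (κ : ℕ) (T K : Finset (Fin R)) : Decidable (Hit κ T K) := inferInstanceAs (Decidable (_ ∧ _))

/-- For every set `T` the probability of `1 ≤ |T ∩ K| ≤ κ` is at most `q`. -/
def ValLe {R : ℕ} (κ : ℕ) (q : ℝ) (μ : Finset (Fin R) → ℝ) : Prop :=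
  ∀ T : Finset (Fin R), ∑ K with Hit κ T K, μ K ≤ q

/-- The critical probability: the value of the game in which the first player chooses a probability distribution on the
nonempty finite sets `K` with at most `m` elements, the second player chooses a set `T`, and the second player gets
the probability of `1 ≤ |T ∩ K| ≤ κ`. -/
noncomputable def theta (m κ : ℕ) : ℝ :=
  sInf {q : ℝ | ∃ (R : ℕ) (μ : Finset (Fin R) → ℝ), Strat R m μ ∧ ValLe κ q μ}

end Pool.Agent.ISO
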