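import Pool.Agent.helper92.ISO.Defs

/-!
# Project ISO (MP_069684_lc): the sharp threshold of the isolation probability. Block G: the game

THEOREM. `theta m κ` = value of the game (Defs). (1) If `m(n) ≤ n^(1/2-ε)`, `p(n) ≥ (1+ε) theta(m(n), κ(n))` for large `n` and `p ≤ 1`, then all verifiers are
`(m, κ, p)`-prunable IFF P/Poly = NP/Poly. (2) If `m` is polynomially bounded and `p(n) ≤ (1-ε) theta(m(n), κ(n))` then all verifiers are `(m, κ, p)`-prunable.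
(3) `theta 2 1 = 1/2`, `theta m κ ≤ H_κ / H_m`, `theta m κ · ln m → H_κ`. (Known: Valiant-Vazirani; Dell, Kabanets, van Melkebeek, Watanabe: `2/3`.)

RULES. Row `iso:XXX`: prove `XXX_stmt` in `Pool/Agent/<seat>/ISO/XXX.lean`, `import Pool.Agent.helper92.ISO.SpecG` (or `SpecC`, where the row is), `set_option autoImplicit false`, namespace `Pool.Agent.ISO`,
auxiliary lemmas prefixed `XXX_`, theorem `XXX_proof : XXX_stmt`; rows listed in `from` are hypotheses `(h : YYY_stmt)`.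
-/

set_option autoImplicit false

open Filter Topology

namespace Pool.Agent.ISO

open Pool.Agent.PB

/-- **Row PRM** (random set of density `x`; short-medium; pure). First part: `Fin.sum_pow_mul_eq_add_pow` or `Finset.sum_pow_mul_eq_add_pow`. Second part: `T = A ∪ B` with `A ⊆ K`, `|A| = r`, `B ⊆ Kᶜ`
(bijection of the `T` with the pairs `(A, B)`): the sum is `∑_A x^r (1-x)^(|K|-r) ∑_B x^|B| (1-x)^(R-|K|-|B|)`. (For `r > |K|` both sides are `0`.) -/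
def PRM_stmt : Prop := ∀ (R : ℕ) (K : Finset (Fin R)) (x : ℝ),
  (∑ T : Finset (Fin R), x ^ T.card * (1 - x) ^ (R - T.card) = 1) ∧
  ∀ r : ℕ, (∑ T : Finset (Fin R), if (T ∩ K).card = r then x ^ T.card * (1 - x) ^ (R - T.card) else 0) =
    (K.card.choose r : ℝ) * x ^ r * (1 - x) ^ (K.card - r)

/-- the probability that a binomial variable (`t` trials, probability `x`) is between `1` and `κ` -/
noncomputable def bin (κ t : ℕ) (x : ℝ) : ℝ := ∑ r ∈ Finset.Icc 1 κ, (t.choose r : ℝ) * x ^ r * (1 - x) ^ (t - r)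

/-- **Row BET** (beta integrals; medium; pure). For `1 ≤ r ≤ t`: `∫_0^1 C(t,r) x^(r-1) (1-x)^(t-r) dx = 1/r` (the derivative of `∑_(j ≥ r) C(t,j) x^j (1-x)^(t-j)` is `r C(t,r) x^(r-1) (1-x)^(t-r)`; or by parts and induction
on `t - r`). So `∫_0^1 bin/x = H_min(κ,t)`. On `(0, a)`: `bin κ t x ≤ 1 - (1-x)^t ≤ t x` (Bernoulli), so `∫_0^a bin/x ≤ t a`. (Replace `bin κ t x / x` by the polynomial `∑_(1 ≤ r ≤ min κ t) C(t,r) x^(r-1) (1-x)^(t-r)`.) -/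
def BET_stmt : Prop := ∀ (t κ : ℕ) (a : ℝ), 1 ≤ t → 0 < a → a ≤ 1 →
  (harmonic (min κ t) : ℝ) - t * a ≤ ∫ x in a..1, bin κ t x / x

/-- **Row THL** (the lower bound for the value; short-medium; from PRM, BET). For `x` in `[0,1]` multiply `ValLe` for `T` by `x^|T| (1-x)^(R-|T|)` and sum over `T`: by PRM (sum over `r` in `[1, κ]`) `∑_K μ(K) bin κ |K| x ≤ q`. Divide by `x`,
integrate over `[δ/m, 1]`: `∑_K μ(K) ∫ bin κ |K| x / x ≤ q ln(m/δ)`. By BET (`a = δ/m`, `|K| ≤ m`) the left side is `≥ ∑_K μ(K) H_min(κ,|K|) - δ`. With `T = univ`: `μ(|K| ≤ κ) ≤ q`, so `∑_K μ(K) H_min(κ,|K|) ≥ (1 - q) H_κ`.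
(`q ≥ 0` because `μ ≥ 0`.) -/
def THL_stmt : Prop := ∀ (R m κ : ℕ) (q δ : ℝ) (μ : Finset (Fin R) → ℝ), 1 ≤ m → 1 ≤ κ → 0 < δ → δ ≤ 1 → Strat R m μ → ValLe κ q μ →
  (harmonic κ : ℝ) - δ ≤ q * (Real.log (m / δ) + harmonic κ)

/-- **Row IDE** (the identity; short-medium; pure). Induction on `A`. Let `w(M,t) = 1/(t C(M,t)) = (t-1)! (M-t)! / M!`. Then `w(M,t) + w(M,t+1) = w(M-1,t)` for `1 ≤ t < M` (common factor `(t-1)! (M-t-1)! / M!`, sum `(M-t) + t = M`).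
With `C(A+1,j) = C(A,j) + C(A,j-1)`: `∑_j C(A+1,j) w(τ+A+1, r+j) = ∑_j C(A,j) (w(τ+A+1, r+j) + w(τ+A+1, r+j+1)) = ∑_j C(A,j) w(τ+A, r+j)`, and for `A = 0` it is `w(τ, r) = 1/(r C(τ,r))`. -/
def IDE_stmt : Prop := ∀ τ r A : ℕ, 1 ≤ r → r ≤ τ →
  ∑ j ∈ Finset.range (A + 1), ((τ.choose r : ℝ) * (A.choose j : ℝ)) / (((r + j : ℕ) : ℝ) * ((τ + A).choose (r + j) : ℝ)) = 1 / (r : ℝ)

/-- **Row UPB** (medium; from IDE). `μ(K) = 1 / (H_m |K| C(m,|K|))` for `K ≠ ∅`, `μ(∅) = 0`; the sum is `∑_(t=1..m) C(m,t) / (H_m t C(m,t)) = 1`. For `|T| = τ` and `r ≥ 1`: the number of `K` with `|T ∩ K| = r`, `|K| = r + j` is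
`C(τ,r) C(m-τ,j)`, so by IDE `∑_(|T ∩ K| = r) μ(K) = 1/(r H_m)` if `r ≤ τ`, and `0` if `r > τ`. Sum over `r = 1..κ`. -/
def UPB_stmt : Prop := ∀ m κ : ℕ, 1 ≤ κ → κ ≤ m →
  ∃ μ : Finset (Fin m) → ℝ, Strat m m μ ∧ ValLe κ ((harmonic κ : ℝ) / (harmonic m : ℝ)) μ

/-- **Row THB** (basic facts about `theta`; short; from THL). The set of the `q` in the definition is not empty (`R = 1`, the set `{0}`, `q = 1`) and by THL with `δ = 1/2` all its elements satisfy `H - 1/2 ≤ q (ln(2m) + H)`, `H = H_κ ≥ 1`, so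
`q ≥ (H - 1/2)/(ln(2m) + H) ≥ (1/2)/(ln(2m) + 1)`. -/
def THB_stmt : Prop := ∀ m κ : ℕ, 1 ≤ m → 1 ≤ κ →
  (∀ (q : ℝ) (R : ℕ) (μ : Finset (Fin R) → ℝ), Strat R m μ → ValLe κ q μ → theta m κ ≤ q) ∧
  (∀ q : ℝ, theta m κ < q → ∃ (R : ℕ) (μ : Finset (Fin R) → ℝ), Strat R m μ ∧ ValLe κ q μ) ∧
  0 < theta m κ ∧ theta m κ ≤ 1 ∧ 1 / 2 ≤ theta m κ * (Real.log (2 * m) + 1) ∧
  ∀ δ : ℝ, 0 < δ → δ ≤ 1 → (harmonic κ : ℝ) - δ ≤ theta m κ * (Real.log (m / δ) + harmonic κ)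

/-- **Row TWO** (short-medium; from PRM, THB). Upper bound: for `R ≥ 2` the uniform distribution on the pairs: a set `T` with `τ` elements meets exactly `τ (R - τ) ≤ R²/4` of the `R(R-1)/2` pairs in exactly one point, so
`theta 2 1 ≤ R/(2(R-1))` for all `R ≥ 2`. Lower bound: PRM with `x = 1/2`, `r = 1`: if `ValLe 1 q μ` then `∑_K μ(K) |K| 2^(-|K|) ≤ q`, and `|K| 2^(-|K|) = 1/2` for `|K| = 1, 2`. -/
def TWO_stmt : Prop := theta 2 1 = 1 / 2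

/-- **Row LIM** (short-medium; from THB, UPB). Upper bound: `theta m κ ln m ≤ H_κ ln m / H_m ≤ H_κ` (`log_add_one_le_harmonic`). Lower bound (THB, last part): `theta m κ ln m ≥ (H_κ - δ) ln m/(ln m + ln(1/δ) + H_κ)`. -/
def LIM_stmt : Prop := (∀ m κ : ℕ, 1 ≤ κ → κ ≤ m → theta m κ ≤ (harmonic κ : ℝ) / (harmonic m : ℝ)) ∧
  ∀ κ : ℕ, 1 ≤ κ → Tendsto (fun m : ℕ => theta m κ * Real.log m) atTop (𝓝 (harmonic κ : ℝ))

/-! ## Potential arguments -/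

open Classical in
/-- **Row PTU** (potential argument, upper; short-medium; pure). Choose `L 0, L 1, ..` one after the other; `Φ_j = ∑_a exp(lam c_j(a))`, `c_j(a)` = number of the `j' < j` with `hit (L j') a`. With the weights `μ(a) = exp(lam c_j(a))/Φ_j` choose `i = L j`:
`Φ_(j+1) = ∑_a exp(lam c_j(a)) (1 + (e^lam - 1) [hit i a]) ≤ (1 + (e^lam - 1) q) Φ_j ≤ exp((lam + lam²) q) Φ_j` (`e^lam - 1 ≤ lam + lam²` for `0 ≤ lam ≤ 1`; `q ≥ 0` because a sum of nonnegative numbers is `≤ q`).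
`exp(lam c_k(a)) ≤ Φ_k ≤ |α| exp((lam + lam²) q k)`; take logarithms. -/
def PTU_stmt : Prop := ∀ (α ι : Type) [Fintype α] [Nonempty α] (hit : ι → α → Prop) (q lam : ℝ) (k : ℕ), 0 < lam → lam ≤ 1 →
  (∀ μ : α → ℝ, (∀ a, 0 ≤ μ a) → ∑ a, μ a = 1 → ∃ i, ∑ a with hit i a, μ a ≤ q) →
    ∃ L : Fin k → ι, ∀ a, ((Finset.univ.filter fun j => hit (L j) a).card : ℝ) ≤ (1 + lam) * q * k + Real.log (Fintype.card α) / lam

open Classical in
/-- **Row PTL** (potential argument, lower; short-medium; pure). As PTU with `Φ_j = ∑_a exp(-lam c_j(a))`: `Φ_(j+1) ≤ (1 - (1 - e^(-lam)) q) Φ_j ≤ exp(-(lam - lam²/2) q) Φ_j`, so `exp(-lam c_k(a)) ≤ |α| exp(-(lam - lam²/2) q k)`. -/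
def PTL_stmt : Prop := ∀ (α ι : Type) [Fintype α] [Nonempty α] (hit : ι → α → Prop) (q lam : ℝ) (k : ℕ), 0 < lam → lam ≤ 1 → 0 ≤ q →
  (∀ μ : α → ℝ, (∀ a, 0 ≤ μ a) → ∑ a, μ a = 1 → ∃ i, q ≤ ∑ a with hit i a, μ a) →
    ∃ L : Fin k → ι, ∀ a, (1 - lam) * q * k - Real.log (Fintype.card α) / lam ≤ ((Finset.univ.filter fun j => hit (L j) a).card : ℝ)

/-! ## Designs -/

/-- **Row CMR** (compression; medium; pure). Average over the functions `g : Fin R' → Fin R`: `μ'(K') = R^(-R') ∑_g ∑_K μ(K) [g(K) = K']`. `|T ∩ g(K)| = |g⁻¹(T) ∩ K|` if `g` is injective on `K`; the number of the `g` which are not injective on `K` is at most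
`(|K| choose 2) R^(R'-1) ≤ m²/(2R) · R^(R')` (union bound over the pairs; `#{g : g a = g b} = R^(R'-1)`). -/
def CMR_stmt : Prop := ∀ (m κ R R' : ℕ) (q : ℝ) (μ : Finset (Fin R') → ℝ), 1 ≤ R → Strat R' m μ → ValLe κ q μ →
  ∃ μ' : Finset (Fin R) → ℝ, Strat R m μ' ∧ ValLe κ (q + (m : ℝ) ^ 2 / (2 * R)) μ'

/-- **Row DES** (short; from PTU). PTU with `α` = the sets `T` (`|α| = 2^R`), `ι` = the sets `K` with `1 ≤ |K| ≤ m`: for a distribution `ρ` on the sets `T` one has `∑_K μ(K) ∑_(T : Hit) ρ(T) = ∑_T ρ(T) ∑_(K : Hit) μ(K) ≤ q`, so some `K` with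
`μ(K) ≠ 0` has `∑_(T : Hit) ρ(T) ≤ q`. -/
def DES_stmt : Prop := ∀ (R m κ M : ℕ) (q lam : ℝ) (μ : Finset (Fin R) → ℝ), 0 < lam → lam ≤ 1 → Strat R m μ → ValLe κ q μ →
  ∃ K : Fin M → Finset (Fin R), (∀ e, 1 ≤ (K e).card ∧ (K e).card ≤ m) ∧
    ∀ T : Finset (Fin R), ((Finset.univ.filter fun e => Hit κ T (K e)).card : ℝ) ≤ (1 + lam) * q * M + R * Real.log 2 / lam

/-- A design: `M` nonempty sets with at most `m` elements such that every `T` has `1 ≤ |T ∩ K e| ≤ κ` for less than `p M` of the `e`. -/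
def Design {M R : ℕ} (m κ : ℕ) (p : ℝ) (K : Fin M → Finset (Fin R)) : Prop :=
  (∀ e, 1 ≤ (K e).card ∧ (K e).card ≤ m) ∧
    ∀ T : Finset (Fin R), ((Finset.univ.filter fun e => Hit κ T (K e)).card : ℝ) < p * M

/-- **Row DNU** (numbers; short-medium; from THB, CMR, DES). Let `ε ≤ 1` (otherwise use `ε = 1`), `θ = theta m κ`; `1/θ ≤ 2 (ln(2m) + 1) ≤ 4 (1 + ln m)`. A strategy with value `≤ (1 + ε/8) θ` (THB); CMR with `R = ⌈4 m²/(ε θ)⌉`: value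
`≤ (1 + ε/4) θ`; DES with `lam = ε/8`, `M = ⌈64 R/(ε² θ)⌉`: at most `(1 + ε/8)(1 + ε/4) θ M + (ε/8) θ M < (1 + ε) θ M ≤ p M` hits. -/
def DNU_stmt : Prop := ∀ ε : ℝ, 0 < ε → ∃ C : ℝ, ∀ (m κ : ℕ) (p : ℝ), 1 ≤ m → 1 ≤ κ → (1 + ε) * theta m κ ≤ p →
  ∃ (M R : ℕ) (K : Fin M → Finset (Fin R)), 1 ≤ M ∧ (M : ℝ) ≤ C * (m : ℝ) ^ 2 * (1 + Real.log m) ^ 2 ∧
    (R : ℝ) ≤ C * (m : ℝ) ^ 2 * (1 + Real.log m) ∧ Design m κ p K

/-- **Row DNV** (numbers, `κ = 1`; short-medium; from UPB, DES, LIM, DNU). Let `ε ≤ 1`. By LIM (`κ = 1`) `theta m 1 · ln m → 1`, and `H_m ≥ ln m`, so `1/H_m ≤ (1 + ε/4) theta m 1` for `m ≥ m0`; the strategy of UPB (`R = m`) has the value `1/H_m`; DES with `lam = ε/8`,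
`M = ⌈64 m/(ε² θ)⌉`, `θ = theta m 1` (as in DNU). For `m < m0` DNU (finitely many `m`: its bounds are constants). -/
def DNV_stmt : Prop := ∀ ε : ℝ, 0 < ε → ∃ C : ℝ, ∀ (m : ℕ) (p : ℝ), 1 ≤ m → (1 + ε) * theta m 1 ≤ p →
  ∃ (M R : ℕ) (K : Fin M → Finset (Fin R)), 1 ≤ M ∧ (M : ℝ) ≤ C * (m : ℝ) * (1 + Real.log m) ^ 2 ∧
    (R : ℝ) ≤ C * (m : ℝ) ∧ Design m 1 p K

/-- The condition of the theorem: `p` is above the critical probability, at least for at most `n^(1/2-ε)` witnesses, or `κ = 1` and at least for at most `n^(1-ε)` witnesses. -/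
def Above (ε : ℝ) (m κ n : ℕ) (p : ℝ) : Prop :=
  (1 + ε) * theta (min m ⌊(n : ℝ) ^ (1 / 2 - ε)⌋₊) κ ≤ p ∨ (κ = 1 ∧ (1 + ε) * theta (min m ⌊(n : ℝ) ^ (1 - ε)⌋₊) 1 ≤ p)

/-- **Row DSP** (supply of designs; short-medium; from DNU, DNV). For `n ≥ 1` the floors are `≥ 1`. Case 1: DNU for `m' = min m ⌊n^(1/2-ε)⌋`: `M ≤ C n^(1-2ε) (1 + ln n)² ≤ n^(1-ε/2)` and `R ≤ C n^(1-2ε) (1 + ln n) ≤ n` for large `n`. Case 2: DNV for `m' = min m ⌊n^(1-ε)⌋`.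
A design for `m' ≤ m` is a design for `m`. -/
def DSP_stmt : Prop := ∀ (ε : ℝ) (m κ : ℕ → ℕ) (p : ℕ → ℝ), 0 < ε → ε < 1 / 2 → (∀ n, 1 ≤ m n) → (∀ n, 1 ≤ κ n) →
  (∀ᶠ n : ℕ in atTop, Above ε (m n) (κ n) n (p n)) →
    ∀ᶠ N : ℕ in atTop, ∃ (M R : ℕ) (K : Fin M → Finset (Fin R)), 1 ≤ M ∧ (M : ℝ) ≤ (N : ℝ) ^ (1 - ε / 2) ∧ R ≤ N ∧
      Design (m N) (κ N) (p N) K

/-- **Row PRL** (a list of sets for the second player; short-medium; from THB, PTL). PTL with `α` = the `K` with `1 ≤ |K| ≤ m` (`|α| ≤ (R+1)^m`), `ι` = the sets `T`, `q = theta m κ`: for a distribution `μ` on `α` some `T` has `μ(Hit) ≥ theta m κ`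
(otherwise the maximum over `T` would be a value `< theta m κ`, against THB). (`α` empty, i.e. `R = 0`: any `T`.) -/
def PRL_stmt : Prop := ∀ (R m κ k : ℕ) (lam : ℝ), 1 ≤ m → 1 ≤ κ → 0 < lam → lam ≤ 1 →
  ∃ T : Fin k → Finset (Fin R), ∀ K : Finset (Fin R), 1 ≤ K.card → K.card ≤ m →
    (1 - lam) * theta m κ * k - m * Real.log (R + 1) / lam ≤ ((Finset.univ.filter fun i => Hit κ (T i) K).card : ℝ)

end Pool.Agent.ISO
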